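import Mathlib
import Pool.Agent.N290.RK.Stm3

/-!
# Project RK (helper290), part GLR (helper301): radial modulus
-/

set_option autoImplicit false

open Complex MeasureTheory Set Filter Topology
open scoped ENNReal

namespace Pool.Agent.N301.RK

open Pool.Agent.N290.RJ Pool.Agent.N290.RK

variable {d : ℕ}

/-- the power `t ^ (1/8)`, extended to a monotone function -/
noncomputable def pw (t : ℝ) : ℝ := (max 0 (min t 1)) ^ (1 / 8 : ℝ)

theorem pw_mono : Monotone pw := fun s t h =>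
  Real.rpow_le_rpow (le_max_left _ _) (max_le_max le_rfl (min_le_min h le_rfl)) (by norm_num)

theorem pw_bd (t : ℝ) : 0 ≤ pw t ∧ pw t ≤ 1 := by
  refine ⟨Real.rpow_nonneg (le_max_left _ _) _, ?_⟩
  exact Real.rpow_le_one (le_max_left _ _) (max_le zero_le_one (min_le_right _ _)) (by norm_num)

theorem pw_eq {t : ℝ} (h0 : 0 ≤ t) (h1 : t ≤ 1) : pw t = t ^ (1 / 8 : ℝ) := by
  unfold pw
  rw [min_eq_left h1, max_eq_right h0]

theorem pw_pos {t : ℝ} (h0 : 0 < t) : 0 < pw t :=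
  Real.rpow_pos_of_pos (lt_max_of_lt_right (lt_min h0 one_pos)) _

theorem slow_max {K : ℝ} {ω : ℝ → ℝ} (h : Slow K ω) (hK : 1 ≤ K) :
    Slow K (fun t => max (ω t) (pw t)) := by
  refine ⟨fun s t hst => max_le_max (h.1 hst) (pw_mono hst),
    fun t => ⟨le_max_of_le_left (h.2.1 t).1, max_le (h.2.1 t).2 (pw_bd t).2⟩,
    fun s t ht hts hs => ?_⟩
  have h1 := h.2.2 s t ht hts hs
  have hst : 0 ≤ s / t := div_nonneg (ht.le.trans hts) ht.le
  have h2 : pw s = (s / t) ^ (1 / 8 : ℝ) * pw t := by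
    rw [pw_eq (ht.le.trans hts) hs, pw_eq ht.le (hts.trans hs), ← Real.mul_rpow hst ht.le,
      div_mul_cancel₀ _ ht.ne']
  have hR : 0 ≤ (s / t) ^ (1 / 8 : ℝ) := Real.rpow_nonneg hst _
  set R := (s / t) ^ (1 / 8 : ℝ) with hRd
  show max (ω s) (pw s) ≤ K * R * max (ω t) (pw t)
  have hKR : 0 ≤ K * R := mul_nonneg (by linarith) hR
  refine max_le (h1.trans (mul_le_mul_of_nonneg_left (le_max_left _ _) hKR)) ?_
  rw [h2]
  calc R * pw t ≤ K * R * pw t := by
        have := mul_nonneg hR (pw_bd t).1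
        nlinarith
    _ ≤ K * R * max (ω t) (pw t) := mul_le_mul_of_nonneg_left (le_max_right _ _) hKR

theorem fin_pw : ∫⁻ t in Ioo (0 : ℝ) 1, ENNReal.ofReal (pw t ^ 2 / t) ≠ ⊤ := by
  have h1 : IntegrableOn (fun t : ℝ => t ^ (-(3 / 4) : ℝ)) (Ioo 0 1) := by
    have h2 := intervalIntegral.intervalIntegrable_rpow' (a := 0) (b := 1)
      (show (-1 : ℝ) < -(3 / 4) by norm_num)
    rw [intervalIntegrable_iff_integrableOn_Ioo_of_le zero_le_one] at h2
    exact h2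
  have h3 : ∫⁻ t in Ioo (0 : ℝ) 1, ENNReal.ofReal (pw t ^ 2 / t) =
      ∫⁻ t in Ioo (0 : ℝ) 1, ENNReal.ofReal (t ^ (-(3 / 4) : ℝ)) := by
    refine setLIntegral_congr_fun measurableSet_Ioo fun t ht => ?_
    have e : pw t ^ 2 / t = t ^ (-(3 / 4) : ℝ) := by
      rw [pw_eq ht.1.le ht.2.le, ← Real.rpow_natCast (t ^ (1 / 8 : ℝ)) 2, ← Real.rpow_mul ht.1.le,
        div_eq_mul_inv, ← Real.rpow_neg_one t, ← Real.rpow_add ht.1]
      congr 1
      norm_num
    show ENNReal.ofReal (pw t ^ 2 / t) = _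
    rw [e]
  rw [h3]
  exact h1.lintegral_lt_top.ne

theorem GlR_of (d : ℕ) (h : GlB d) (hE : Pool.Agent.N290.RI.E1) (hSP : SP d) (hEU : EU d) :
    GlR d := by
  intro M L ε A ω hε hω
  obtain ⟨hωm, hω0, hint⟩ := hω
  obtain ⟨CE, hCE, hE⟩ := hE
  obtain ⟨ω', σ', hω'm, -, hω'b, hσ'b, hle, hreg, hint'⟩ := hE (fun t => min (ω t) 1)
    (fun _ => 0) (fun s t hst => min_le_min (hωm hst) le_rfl) monotone_const
    (fun t => ⟨le_min (hω0 t) zero_le_one, min_le_right _ _⟩)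
    (fun t => ⟨le_rfl, zero_le_one⟩)
  have hslow : Slow (max CE 1) ω' := by
    have h1 : Slow CE ω' := ⟨hω'm, hω'b, fun s t ht hts hs => (hreg s t ht hts hs).1⟩
    exact h1.mono (le_max_left _ _)
  have hfin : ∫⁻ t in Ioo (0 : ℝ) 1, ENNReal.ofReal (ω' t ^ 2 / t) ≠ ⊤ := by
    have h1 : ∫⁻ t in Ioo (0 : ℝ) 1, ENNReal.ofReal (ω' t ^ 2 / t) ≤
        ∫⁻ t in Ioo (0 : ℝ) 1, ENNReal.ofReal (ω' t * (ω' t + σ' t) / t) := by
      refine setLIntegral_mono' measurableSet_Ioo fun t ht => ENNReal.ofReal_le_ofReal ?_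
      refine div_le_div_of_nonneg_right ?_ ht.1.le
      have h2 := (hω'b t).1
      have h3 := (hσ'b t).1
      nlinarith [mul_nonneg h2 h3]
    have h2 : ∫⁻ t in Ioo (0 : ℝ) 1, ENNReal.ofReal (min (ω t) 1 * (min (ω t) 1 + 0) / t) ≤
        ∫⁻ t in Ioo (0 : ℝ) 1, ENNReal.ofReal (ω t ^ 2 / t) := by
      refine setLIntegral_mono' measurableSet_Ioo fun t ht => ENNReal.ofReal_le_ofReal ?_
      refine div_le_div_of_nonneg_right ?_ ht.1.le
      have h2 : 0 ≤ min (ω t) 1 := le_min (hω0 t) zero_le_one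
      have h3 : min (ω t) 1 ≤ ω t := min_le_left _ _
      rw [add_zero, sq]
      exact mul_le_mul h3 h3 h2 (hω0 t)
    refine ne_top_of_le_ne_top ?_ (h1.trans hint')
    refine ENNReal.mul_ne_top ENNReal.ofReal_ne_top ?_
    exact ENNReal.add_ne_top.2 ⟨ENNReal.one_ne_top, ne_top_of_le_ne_top hint.ne h2⟩
  obtain ⟨CU, hCU, hEU⟩ := hEU (max CE 1) (le_max_right _ _)
  have hslow2 := hslow.min_mul (le_max_right CE 1) hCU
  have hfin2 : ∫⁻ t in Ioo (0 : ℝ) 1, ENNReal.ofReal (min (CU * ω' t) 1 ^ 2 / t) ≠ ⊤ := by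
    have h1 : ∫⁻ t in Ioo (0 : ℝ) 1, ENNReal.ofReal (min (CU * ω' t) 1 ^ 2 / t) ≤
        ∫⁻ t in Ioo (0 : ℝ) 1, ENNReal.ofReal (CU ^ 2) * ENNReal.ofReal (ω' t ^ 2 / t) := by
      refine setLIntegral_mono' measurableSet_Ioo fun t ht => ?_
      rw [← ENNReal.ofReal_mul (by positivity)]
      refine ENNReal.ofReal_le_ofReal ?_
      rw [← mul_div_assoc]
      refine div_le_div_of_nonneg_right ?_ ht.1.le
      rw [← mul_pow]
      exact pow_le_pow_left₀ (le_min (mul_nonneg hCU.le (hω'b t).1) zero_le_one)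
        (min_le_left _ _) 2
    rw [lintegral_const_mul' _ _ ENNReal.ofReal_ne_top] at h1
    exact ne_top_of_le_ne_top (ENNReal.mul_ne_top ENNReal.ofReal_ne_top hfin) h1
  have hslow3 := slow_max hslow2 (le_max_right CE 1)
  have hfin3 : ∫⁻ t in Ioo (0 : ℝ) 1,
      ENNReal.ofReal (max (min (CU * ω' t) 1) (pw t) ^ 2 / t) ≠ ⊤ := by
    have h1 : ∫⁻ t in Ioo (0 : ℝ) 1, ENNReal.ofReal (max (min (CU * ω' t) 1) (pw t) ^ 2 / t) ≤
        ∫⁻ t in Ioo (0 : ℝ) 1, (ENNReal.ofReal (min (CU * ω' t) 1 ^ 2 / t) +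
          ENNReal.ofReal (pw t ^ 2 / t)) := by
      refine setLIntegral_mono' measurableSet_Ioo fun t ht => ?_
      rw [← ENNReal.ofReal_add (div_nonneg (sq_nonneg _) ht.1.le)
        (div_nonneg (sq_nonneg _) ht.1.le), ← add_div]
      refine ENNReal.ofReal_le_ofReal (div_le_div_of_nonneg_right ?_ ht.1.le)
      rcases max_cases (min (CU * ω' t) 1) (pw t) with h | h
      · rw [h.1]
        have := sq_nonneg (pw t)
        linarith
      · rw [h.1]
        have := sq_nonneg (min (CU * ω' t) 1)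
        linarith
    have hmeas : Measurable fun t : ℝ => ENNReal.ofReal (pw t ^ 2 / t) :=
      ((pw_mono.measurable.pow_const 2).div measurable_id).ennreal_ofReal
    rw [lintegral_add_right _ hmeas] at h1
    exact ne_top_of_le_ne_top (ENNReal.add_ne_top.2 ⟨hfin2, fin_pw⟩) h1
  obtain ⟨C, hC⟩ := h M L ε A (max CE 1) (fun t => max (min (CU * ω' t) 1) (pw t)) hε
    (le_max_right _ _) hslow3 (fun t ht => lt_max_of_lt_right (pw_pos ht)) hfin3
  refine ⟨C, fun f G κ hArb hf => hC f G κ hArb fun j z hz ξ => ?_⟩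
  have hd := hArb.f1 j
  have hb := hArb.f2 j
  have h1 : ∀ z ∈ B d, (1 - nm z) * ‖fderiv ℂ (f j) z z‖ ≤ ω' (1 - nm z) := by
    intro z hz
    refine le_trans ?_ (hle _ (x_pos hz) (by have := nm_nonneg z; linarith)).1
    exact le_min (hf j z hz) (rad_le_one hSP hd hb hz)
  have h2 := hEU (f j) ω' hd hslow h1 z hz ξ
  have h4 := hSP (f j) hd hb z hz ξ
  have hlen : 0 ≤ len z ξ := Real.sqrt_nonneg _
  have h5 : ‖fderiv ℂ (f j) z ξ‖ ≤ min (CU * ω' (1 - N z)) 1 * len z ξ := by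
    rcases le_total (CU * ω' (1 - N z)) 1 with h6 | h6
    · rw [min_eq_left h6]; exact h2
    · rw [min_eq_right h6, one_mul]; exact h4
  exact h5.trans (mul_le_mul_of_nonneg_right (le_max_left _ _) hlen)

end Pool.Agent.N301.RK
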